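import Mathlib
import Pool.Agent.Helper332.NRS.Forcing
import Pool.Agent.Helper332.NRS.Main

/-!
# Compacta whose small subsets have Corson closures

It is consistent with ZFC that there is a compact space which is not Corson compact, although all
closures of sets of size at most continuum are Corson compact.
-/

set_option autoImplicit false

namespace Pool.Agent.Results.MP_1c9258_gt.NotProvable

open Cardinal Set
open Pool.Agent.Helper332.NRS (NRSHolds NonreflectingStationary)

/-- (1) Some forcing notion forces that there is a nonreflecting stationary set of points of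
cofinality `ω` in the successor of the continuum. (2) If there is such a set, then there is a
compact Hausdorff space `X` which is not Corson compact, although the closure of every subset of
size at most continuum is Corson compact. -/
theorem result :
    (∃ (P : Type) (_ : Preorder P), Nonempty P ∧ ∀ p : P, p ∈ NRSHolds P) ∧
    (NonreflectingStationary →
      ∃ (X : Type) (_ : TopologicalSpace X), CompactSpace X ∧ T2Space X ∧
        (∀ A : Set X, #A ≤ 𝔠 →
          ∃ (Γ : Type) (f : ↥(closure A) → (Γ → ℝ)),
            Topology.IsEmbedding f ∧ ∀ x, (Function.support (f x)).Countable) ∧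
        ¬ ∃ (Γ : Type) (f : X → (Γ → ℝ)),
          Topology.IsEmbedding f ∧ ∀ x, (Function.support (f x)).Countable) := by
  refine ⟨Pool.Agent.Helper332.NRS.exists_forcing, fun h => ?_⟩
  obtain ⟨X, hX, h1, h2, h3, h4⟩ := Pool.Agent.Helper332.NRS.space_of_nrs h
  refine ⟨X, hX, h1, h2, fun A hA => ?_, ?_⟩
  · obtain ⟨Γ, f, hf, hinj, hs, _⟩ := h3 A hA
    have : CompactSpace ↥(closure A) := isCompact_iff_compactSpace.1 isClosed_closure.isCompact
    exact ⟨Γ, f, (hf.isClosedEmbedding hinj).isEmbedding, fun x => (hs x).countable⟩
  · rintro ⟨Γ, f, hf, hc⟩
    exact h4 Γ f hf.continuous hf.injective hc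

end Pool.Agent.Results.MP_1c9258_gt.NotProvable
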